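import Pool.Agent.H73.CBE.Stmts

/-! # Row TRA of the board `cbe`: from the unit sphere to the projective space -/

set_option autoImplicit false

namespace Pool.CBE

theorem TRA_thm (h1 : PERStmt) (h2 : EULStmt) : TRAStmt := by
  obtain ⟨p1, -, p3, p4, p5, p6⟩ := h1
  intro n d f η C hd hη hcd hom hb hder
  obtain ⟨e1, e2⟩ := h2 n d f (by omega) hcd hom
  have dec : ∀ z : E n, z ≠ 0 → ∃ zh : E n, ‖zh‖ = 1 ∧ z = ((‖z‖ : ℝ) : ℂ) • zh := by
    intro z hz
    have hz' : 0 < ‖z‖ := norm_pos_iff.mpr hz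
    refine ⟨(((‖z‖ : ℝ) : ℂ))⁻¹ • z, ?_, ?_⟩
    · rw [norm_smul, norm_inv, Complex.norm_real, norm_norm, inv_mul_cancel₀ hz'.ne']
    · rw [smul_smul, mul_inv_cancel₀, one_smul]
      exact_mod_cast hz'.ne'
  have sc : ∀ z zh : E n, z = ((‖z‖ : ℝ) : ℂ) • zh → ‖f z‖ = ‖z‖ ^ d * ‖f zh‖ := by
    intro z zh hze
    have h3 : f z = (((‖z‖ : ℝ) : ℂ)) ^ d • f zh := by
      rw [← hom, ← hze]
    rw [h3, norm_smul, norm_pow, Complex.norm_real, norm_norm]
  refine ⟨?_, ?_⟩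
  · intro z
    by_cases hz : z = 0
    · subst hz
      have h0 : f 0 = 0 := by
        have h3 := hom 0 0
        rw [zero_smul, zero_pow (by omega), zero_smul] at h3
        exact h3
      rw [h0, norm_zero, zero_pow (by omega)]
      simp
    · obtain ⟨zh, hzh, hze⟩ := dec z hz
      rw [sc z zh hze]
      have hb' := hb zh hzh
      constructor
      · rw [mul_comm]
        exact mul_le_mul_of_nonneg_left hb'.1 (by positivity)
      · rw [mul_comm C]
        exact mul_le_mul_of_nonneg_left hb'.2 (by positivity)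
  · intro z v hz
    have hz' : 0 < ‖z‖ := norm_pos_iff.mpr hz
    obtain ⟨zh, hzh, hze⟩ := dec z hz
    obtain ⟨hb1, hb2⟩ := hb zh hzh
    have hC : 0 ≤ C := le_trans hη.le (le_trans hb1 hb2)
    have hzh0 : zh ≠ 0 := by
      intro h0
      rw [h0, norm_zero] at hzh
      exact zero_ne_one hzh
    have hf0 : 0 < ‖f zh‖ := lt_of_lt_of_le hη hb1
    have hf0' : f zh ≠ 0 := norm_pos_iff.mp hf0
    set c : ℂ := ((‖z‖ : ℝ) : ℂ) with hc
    have hc0 : c ≠ 0 := by
      rw [hc]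
      exact_mod_cast hz'.ne'
    have hcn : ‖c‖ = ‖z‖ := by rw [hc, Complex.norm_real, norm_norm]
    -- the left side
    have hL : ‖perp (f z) (fderiv ℂ f z v)‖ =
        ‖z‖ ^ (d - 1) * ‖perp (f zh) (fderiv ℂ f zh v)‖ := by
      have h3 : f z = c ^ d • f zh := by rw [← hom, ← hze]
      have h4 : fderiv ℂ f z v = c ^ (d - 1) • fderiv ℂ f zh v := by
        rw [← e2 c zh v hc0, ← hze]
      rw [h3, h4, p6 n (f zh) _ (c ^ d) (pow_ne_zero d hc0), (p4 n (f zh) _ 0 (c ^ (d - 1))).2,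
        norm_smul, norm_pow, hcn]
    have hR : perp z v = perp zh v := by
      rw [hze]
      exact p6 n zh v c hc0
    -- the main inequality
    have hM : ‖perp (f zh) (fderiv ℂ f zh v)‖ ≤ C * √(d : ℝ) * ‖perp zh v‖ := by
      set b : ℂ := (inner ℂ zh v : ℂ) / ((‖zh‖ ^ 2 : ℝ) : ℂ) with hb'
      have h5 : v = b • zh + perp zh v := by
        unfold perp
        rw [← hb']
        abel
      have h6 : fderiv ℂ f zh v = (b * d) • f zh + fderiv ℂ f zh (perp zh v) := by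
        conv_lhs => rw [h5]
        rw [map_add, map_smul, e1, smul_smul]
      have h7 : perp (f zh) (fderiv ℂ f zh v) = perp (f zh) (fderiv ℂ f zh (perp zh v)) := by
        rw [h6, (p4 n (f zh) _ (fderiv ℂ f zh (perp zh v)) 0).1,
          (p4 n (f zh) (f zh) 0 (b * d)).2, p5 n (f zh) hf0', smul_zero, zero_add]
      rw [h7]
      have h8 := p3 n (f zh) (fderiv ℂ f zh (perp zh v)) 0 hf0'
      rw [zero_smul, sub_zero] at h8
      exact le_trans h8 (hder zh (perp zh v) hzh (p1 n zh v hzh0))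
    unfold q
    rw [hL, hR, sc z zh hze]
    have h9 : ‖z‖ ^ d = ‖z‖ ^ (d - 1) * ‖z‖ := by
      rw [← pow_succ]
      congr 1
      omega
    rw [h9]
    have h10 : ‖z‖ ^ (d - 1) * ‖perp (f zh) (fderiv ℂ f zh v)‖ / (‖z‖ ^ (d - 1) * ‖z‖ * ‖f zh‖) =
        (‖perp (f zh) (fderiv ℂ f zh v)‖ / ‖f zh‖) / ‖z‖ := by
      have h11 : ‖z‖ ^ (d - 1) ≠ 0 := (pow_pos hz' _).ne'
      field_simp
    rw [h10, ← mul_div_assoc]
    refine div_le_div_of_nonneg_right ?_ hz'.le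
    rw [div_le_iff₀ hf0]
    have h12 : 0 ≤ C * √(d : ℝ) * ‖perp zh v‖ := by positivity
    calc ‖perp (f zh) (fderiv ℂ f zh v)‖ ≤ C * √(d : ℝ) * ‖perp zh v‖ := hM
      _ = C * √(d : ℝ) * ‖perp zh v‖ / η * η := by field_simp
      _ ≤ C * √(d : ℝ) * ‖perp zh v‖ / η * ‖f zh‖ :=
          mul_le_mul_of_nonneg_left hb1 (div_nonneg h12 hη.le)
      _ = C * √(d : ℝ) / η * ‖perp zh v‖ * ‖f zh‖ := by ring

end Pool.CBE
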